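import Pool.Agent.helper18.HG.Spec

/-! Row TRC of the project HG (MP_33a656_nt). -/

set_option autoImplicit false

namespace Pool.Agent.helper18.HG

open Finset

theorem TRC (hSER : SER_stmt) (hNPE : NPE_stmt) (hCFS : CFS_stmt) (hFAT : FAT_stmt) : TRC_stmt := by
  intro k hk
  obtain ⟨hb, -⟩ := hCFS k 2 hk le_rfl
  obtain ⟨hw, -⟩ := hSER k 2 hk le_rfl
  refine hFAT (cf k) 1 hb fun hper => hNPE k hk ?_
  obtain ⟨N, p, hp, hN⟩ := hper
  have hstep : ∀ n, N ≤ n → w k (n + 1 + p) - w k (n + 1) = w k (n + p) - w k n := by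
    intro n hn
    have h := hN (n + 1) (by omega)
    have e1 : cf k (n + 1 + p) = w k (n + 1 + p) - w k (n + p) := by
      unfold cf
      rw [if_neg (by omega), show n + 1 + p - 1 = n + p by omega]
    have e2 : cf k (n + 1) = w k (n + 1) - w k n := by
      unfold cf
      rw [if_neg (by omega), Nat.add_sub_cancel]
    rw [e1, e2] at h
    linarith
  have hconst : ∀ m, w k (N + m + p) - w k (N + m) = w k (N + p) - w k N := by
    intro m
    induction m with
    | zero => rfl
    | succ m ih =>
      rw [← ih]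
      exact hstep (N + m) (by omega)
  refine ⟨N, p, hp, fun n hn => ?_⟩
  obtain ⟨m, rfl⟩ := Nat.exists_eq_add_of_le hn
  have h1 := hconst m
  have h2 := hconst p
  have a1 := hw N
  have a2 := hw (N + p)
  have a3 := hw (N + p + p)
  omega

end Pool.Agent.helper18.HG
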